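import Pool.Agent.RS.StmtsT

set_option autoImplicit false

/-!
RS row GNB: existence of minimal generators.
-/

namespace Pool.Agent.RS.H77

open Pool.Agent.RS MvPolynomial

theorem gnb (hA : GnaStmt) : GnbStmt := by
  intro k B _ _ _ gr hgr
  have h1 : ∀ n : ℕ, ∃ (Z : Type) (g : Z → B), (∀ z, g z ∈ gr (n + 1)) ∧
      (∀ c : Z →₀ k, (c.sum fun z a => a • g z) ∈ Dec gr (n + 1) → c = 0) ∧
      ∀ f ∈ gr (n + 1), ∃ c : Z →₀ k, f - (c.sum fun z a => a • g z) ∈ Dec gr (n + 1) :=
    fun n => hA k B gr hgr (n + 1) (Nat.succ_pos n)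
  choose Z g hg1 hg2 hg3 using h1
  refine ⟨(Σ n : ℕ, Z n), fun y => y.1 + 1, fun y => g y.1 y.2, ?_, ?_, ?_⟩
  · intro y
    exact ⟨Nat.succ_pos _, hg1 y.1 y.2⟩
  · set φ : MvPolynomial (Σ n : ℕ, Z n) k →ₐ[k] B :=
      aeval (fun y : (Σ n : ℕ, Z n) => g y.1 y.2) with hφ
    have hX : ∀ (m : ℕ) (z : Z m), g m z ∈ φ.range := by
      intro m z
      exact ⟨X ⟨m, z⟩, by rw [hφ]; simp⟩
    have hle : ∀ n : ℕ, ∀ f ∈ gr n, f ∈ φ.range := by
      intro n
      induction n using Nat.strong_induction_on with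
      | _ n ih =>
        intro f hf
        rcases Nat.eq_zero_or_pos n with h0 | h0
        · subst h0
          obtain ⟨c, rfl⟩ := (hgr.1 f).1 hf
          exact φ.range.algebraMap_mem c
        · obtain ⟨m, rfl⟩ : ∃ m, n = m + 1 := ⟨n - 1, by omega⟩
          obtain ⟨c, hc⟩ := hg3 m f hf
          have hD : Dec gr (m + 1) ≤ Subalgebra.toSubmodule φ.range := by
            unfold Dec
            rw [Submodule.span_le]
            rintro x ⟨a, b, ha, hb, hab, u, hu, v, hv, rfl⟩
            exact φ.range.mul_mem (ih a (by omega) u hu) (ih b (by omega) v hv)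
          have h2 : f - (c.sum fun z a => a • g m z) ∈ φ.range := hD hc
          have h3 : (c.sum fun z a => a • g m z) ∈ φ.range := by
            rw [Finsupp.sum]
            apply φ.range.sum_mem
            intro z _
            exact φ.range.smul_mem (hX m z) _
          have h4 := φ.range.add_mem h2 h3
          rwa [sub_add_cancel] at h4
    intro f
    obtain ⟨N, c, hc, rfl⟩ := hgr.2.2.1 f
    exact φ.range.sum_mem fun n _ => hle n _ (hc n)
  · intro n c hc hD
    by_contra hne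
    obtain ⟨y0, hy0⟩ := Finsupp.support_nonempty_iff.2 hne
    have hn : y0.1 + 1 = n := hc y0 hy0
    obtain ⟨m, z0⟩ := y0
    simp only at hn
    subst hn
    have hbij : Set.BijOn (Sigma.mk m : Z m → (Σ n : ℕ, Z n))
        ((Sigma.mk m : Z m → (Σ n : ℕ, Z n)) ⁻¹' (c.support : Set (Σ n : ℕ, Z n)))
        (c.support : Set (Σ n : ℕ, Z n)) := by
      refine ⟨fun x hx => hx, sigma_mk_injective.injOn, ?_⟩
      rintro ⟨m', z⟩ hy
      have h5 := hc ⟨m', z⟩ hy
      simp only at h5
      have h6 : m' = m := by omega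
      subst h6
      exact ⟨z, hy, rfl⟩
    have h7 := Finsupp.sum_comapDomain (Sigma.mk m : Z m → (Σ n : ℕ, Z n)) c
      (fun (y : (Σ n : ℕ, Z n)) (a : k) => a • g y.1 y.2) hbij
    rw [← h7] at hD
    have h8 := hg2 m (Finsupp.comapDomain (Sigma.mk m) c hbij.injOn) hD
    have h9 : (Finsupp.comapDomain (Sigma.mk m) c hbij.injOn) z0 = 0 := by
      rw [h8]
      rfl
    rw [Finsupp.comapDomain_apply] at h9
    exact (Finsupp.mem_support_iff.1 hy0) h9

end Pool.Agent.RS.H77
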