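import Pool.Agent.RS.StmtsG

set_option autoImplicit false

/-!
RS row GNT: the generator for a finite set of polynomials.
-/

namespace Pool.Agent.RS.H77

open Pool.Agent.RS MvPolynomial

theorem td_aeval {E : Type} [Field E] (f : ℕ → MvPolynomial ℕ E) (hf : ∀ i, (f i).totalDegree ≤ 1)
    (h : MvPolynomial ℕ E) : (aeval f h).totalDegree ≤ h.totalDegree := by
  rw [aeval_def, eval₂_eq]
  refine totalDegree_finsetSum_le fun d hd => ?_
  refine (totalDegree_mul _ _).trans ?_
  have h1 : (algebraMap E (MvPolynomial ℕ E) (coeff d h)).totalDegree = 0 := totalDegree_C _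
  rw [h1, zero_add]
  refine (totalDegree_finsetProd _ _).trans ?_
  refine (Finset.sum_le_sum fun i _ => (totalDegree_pow _ _).trans
    (Nat.mul_le_mul_left _ (hf i))).trans ?_
  simp only [mul_one]
  exact le_totalDegree hd

theorem eval_aeval {E : Type} [Field E] {σ τ : Type} (f : σ → MvPolynomial τ E) (v : τ → E)
    (h : MvPolynomial σ E) : eval v (aeval f h) = eval (fun i => eval v (f i)) h := by
  have h1 : (eval v).comp (aeval f : MvPolynomial σ E →ₐ[E] MvPolynomial τ E).toRingHom =
      eval (fun i => eval v (f i)) := by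
    apply MvPolynomial.ringHom_ext
    · intro a
      simp [MvPolynomial.algebraMap_eq]
    · intro i
      simp
  exact congrArg (fun g : MvPolynomial σ E →+* E => g h) h1

theorem ex_ne {E : Type} [Field E] [CharZero E] {σ : Type} (h : MvPolynomial σ E) (h0 : h ≠ 0) :
    ∃ p : σ → E, eval p h ≠ 0 := by
  by_contra hc
  push Not at hc
  apply h0
  apply MvPolynomial.funext
  intro p
  rw [hc p, map_zero]

theorem gnt (hO : GnoStmt) : GntStmt := by
  intro E _ _ n m H hH
  -- one polynomial
  have one : ∀ h : MvPolynomial ℕ E, h ≠ 0 → h.totalDegree ≤ m →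
      ∃ (w z : Fin m → E) (u : ℕ → E),
        eval (fun i => if i < n then Pool.Agent.UO.point n w z i else u i) h ≠ 0 := by
    intro h h0 hd
    obtain ⟨p, hp⟩ := ex_ne h h0
    set f : ℕ → MvPolynomial ℕ E := fun i => if i < n then X i else C (p i) with hf
    have e1 : eval p (aeval f h) = eval p h := by
      rw [eval_aeval]
      congr 1
      congr 1
      funext i
      rw [hf]
      show eval p (if i < n then X i else C (p i)) = p i
      split_ifs <;> simp
    have h1 : aeval f h ≠ 0 := by
      intro h2
      rw [h2, map_zero] at e1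
      exact hp e1.symm
    have h2 : (aeval f h).totalDegree ≤ m := by
      refine (td_aeval f ?_ h).trans hd
      intro i
      rw [hf]
      show (if i < n then X i else C (p i) : MvPolynomial ℕ E).totalDegree ≤ 1
      split_ifs
      · rw [totalDegree_X]
      · rw [totalDegree_C]
        exact zero_le_one
    have h3 : (aeval f h).vars ⊆ Finset.range n := by
      have h4 : aeval f h ∈ supported E {i : ℕ | i < n} := by
        have h5 : aeval f h ∈ (aeval f : MvPolynomial ℕ E →ₐ[E] MvPolynomial ℕ E).range := ⟨h, rfl⟩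
        rw [← Algebra.adjoin_range_eq_range_aeval] at h5
        have h6 : Algebra.adjoin E (Set.range f) ≤ supported E {i : ℕ | i < n} := by
          rw [Algebra.adjoin_le_iff]
          rintro _ ⟨i, rfl⟩
          show (if i < n then X i else C (p i) : MvPolynomial ℕ E) ∈ supported E {i : ℕ | i < n}
          split_ifs with hi
          · exact X_mem_supported.2 hi
          · exact (supported E {i : ℕ | i < n}).algebraMap_mem (p i)
        exact h6 h5
      rw [mem_supported] at h4
      intro i hi
      exact Finset.mem_range.2 (h4 (Finset.mem_coe.2 hi))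
    obtain ⟨w, z, hwz⟩ := hO E n m (aeval f h) h1 h2 h3
    refine ⟨w, z, p, ?_⟩
    rw [eval_aeval] at hwz
    have e2 : (fun i => eval (Pool.Agent.UO.point n w z) (f i)) =
        fun i => if i < n then Pool.Agent.UO.point n w z i else p i := by
      funext i
      rw [hf]
      show eval (Pool.Agent.UO.point n w z) (if i < n then X i else C (p i)) = _
      split_ifs <;> simp
    rw [e2] at hwz
    exact hwz
  -- all of them
  set pts : ℕ → MvPolynomial (Fin m ⊕ (Fin m ⊕ ℕ)) E := fun i =>
    if i < n then Pool.Agent.UO.point n (fun l => X (Sum.inl l)) (fun l => X (Sum.inr (Sum.inl l))) i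
    else X (Sum.inr (Sum.inr i)) with hpts
  have e3 : ∀ (v : Fin m ⊕ (Fin m ⊕ ℕ) → E) (i : ℕ), eval v (pts i) =
      if i < n then Pool.Agent.UO.point n (fun l => v (Sum.inl l)) (fun l => v (Sum.inr (Sum.inl l))) i
      else v (Sum.inr (Sum.inr i)) := by
    intro v i
    rw [hpts]
    show eval v (if i < n then Pool.Agent.UO.point n (fun l => X (Sum.inl l))
      (fun l => X (Sum.inr (Sum.inl l))) i else X (Sum.inr (Sum.inr i))) = _
    split_ifs with hi
    · unfold Pool.Agent.UO.point
      rw [if_pos hi, if_pos hi]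
      simp only [map_sum, map_mul, map_prod, map_sub, map_natCast, eval_X]
    · rw [eval_X]
  have h4 : ∀ h ∈ H, aeval pts h ≠ 0 := by
    intro h hh h0
    obtain ⟨w, z, u, hw⟩ := one h (hH h hh).1 (hH h hh).2
    apply hw
    have e4 := congrArg (eval (Sum.elim w (Sum.elim z u))) h0
    rw [eval_aeval, map_zero] at e4
    simp only [e3, Sum.elim_inl, Sum.elim_inr] at e4
    exact e4
  have h5 : ∏ h ∈ H, aeval pts h ≠ 0 := Finset.prod_ne_zero_iff.2 h4
  obtain ⟨v, hv⟩ := ex_ne _ h5
  rw [map_prod] at hv
  refine ⟨fun l => v (Sum.inl l), fun l => v (Sum.inr (Sum.inl l)), fun i => v (Sum.inr (Sum.inr i)),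
    fun h hh => ?_⟩
  have h6 := Finset.prod_ne_zero_iff.1 hv h hh
  rw [eval_aeval] at h6
  simp only [e3] at h6
  exact h6

end Pool.Agent.RS.H77
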