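import Pool.Agent.RS.StmtsF

set_option autoImplicit false

/-!
RS row TRM: the residue formula over a field.
-/

namespace Pool.Agent.RS.H77

open Pool.Agent.RS

theorem coeff_csum {L : Type} [Field L] (g : ℕ) (s : ℕ → L) (n : ℕ) :
    (∑ i ∈ Finset.range g, Polynomial.C (s i) * Polynomial.X ^ i).coeff n =
      if n < g then s n else 0 := by
  rw [Polynomial.finsetSum_coeff]
  simp only [Polynomial.coeff_C_mul_X_pow]
  rw [Finset.sum_ite_eq]
  simp only [Finset.mem_range]

theorem trm (hS : SylStmt) : TrmStmt := by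
  intro L _ Q b P Λ B m hΛ hB hQ hb hP hden
  have hg : 0 < B * Q.natDegree := Nat.mul_pos hB hQ
  have hQ0 : Q ≠ 0 := by
    rintro rfl
    simp at hQ
  have hG : (Q ^ B).natDegree ≤ B * Q.natDegree := Polynomial.natDegree_pow_le
  set R : L := Polynomial.resultant b (Q ^ B) m (B * Q.natDegree) with hR
  have hden' : denT m B Q.natDegree Q b = R * Q.leadingCoeff ^ B := rfl
  have hR0 : R ≠ 0 := by
    intro h
    rw [hden', h, zero_mul] at hden
    exact hden rfl
  have hl0 : Q.leadingCoeff ^ B ≠ 0 := by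
    intro h
    rw [hden', h, mul_zero] at hden
    exact hden rfl
  have hone : (1 : Polynomial L).degree < ((m + B * Q.natDegree : ℕ) : WithBot ℕ) := by
    rw [Polynomial.degree_one]
    exact_mod_cast (by omega : 0 < m + B * Q.natDegree)
  have h1 := hS L m (B * Q.natDegree) b (Q ^ B) 1 hb hG hone
  have h2 := hS L m (B * Q.natDegree) b (Q ^ B) P hb hG hP
  rw [← hR] at h1 h2
  set A1 := ∑ i ∈ Finset.range (B * Q.natDegree),
    Polynomial.C (sylA m (B * Q.natDegree) b (Q ^ B) P i) * Polynomial.X ^ i with hA1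
  set A2 := ∑ i ∈ Finset.range m,
    Polynomial.C (sylB m (B * Q.natDegree) b (Q ^ B) P i) * Polynomial.X ^ i with hA2
  have hunit : IsUnit (Polynomial.C R) := Polynomial.isUnit_C.2 (IsUnit.mk0 R hR0)
  have hQu : ¬ IsUnit Q := by
    intro h
    have := Polynomial.natDegree_eq_zero_of_isUnit h
    omega
  have hcopG : IsCoprime b (Q ^ B) := by
    refine ⟨Polynomial.C R⁻¹ * ∑ i ∈ Finset.range (B * Q.natDegree),
      Polynomial.C (sylA m (B * Q.natDegree) b (Q ^ B) 1 i) * Polynomial.X ^ i,
      Polynomial.C R⁻¹ * ∑ i ∈ Finset.range m,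
      Polynomial.C (sylB m (B * Q.natDegree) b (Q ^ B) 1 i) * Polynomial.X ^ i, ?_⟩
    rw [mul_assoc, mul_assoc, ← mul_add, h1, mul_one, ← Polynomial.C_mul, inv_mul_cancel₀ hR0,
      Polynomial.C_1]
  have hcop : IsCoprime b Q := (IsCoprime.pow_right_iff hB).1 hcopG
  have hb0 : b ≠ 0 := by
    rintro rfl
    rw [isCoprime_zero_left] at hcop
    exact hQu hcop
  refine ⟨hb0, hcop, ?_⟩
  have haQ : algebraMap (Polynomial L) (RatFunc L) Q ≠ 0 := by
    intro h
    exact hQ0 ((map_eq_zero_iff _ (IsFractionRing.injective (Polynomial L) (RatFunc L))).1 h)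
  have hab : algebraMap (Polynomial L) (RatFunc L) b ≠ 0 := by
    intro h
    exact hb0 ((map_eq_zero_iff _ (IsFractionRing.injective (Polynomial L) (RatFunc L))).1 h)
  have hCR : algebraMap (Polynomial L) (RatFunc L) (Polynomial.C R) ≠ 0 := by
    intro h
    exact hunit.ne_zero
      ((map_eq_zero_iff _ (IsFractionRing.injective (Polynomial L) (RatFunc L))).1 h)
  have h3 := congrArg (algebraMap (Polynomial L) (RatFunc L)) h2
  rw [map_add, map_mul, map_mul, map_mul, map_pow] at h3
  have hsm : ∀ w : RatFunc L, R • w = algebraMap (Polynomial L) (RatFunc L) (Polynomial.C R) * w := by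
    intro w
    rw [Algebra.smul_def]
    rfl
  have h4 : R • (algebraMap (Polynomial L) (RatFunc L) P /
      (algebraMap (Polynomial L) (RatFunc L) Q ^ B * algebraMap (Polynomial L) (RatFunc L) b)) =
      algebraMap (Polynomial L) (RatFunc L) A1 / algebraMap (Polynomial L) (RatFunc L) Q ^ B +
      algebraMap (Polynomial L) (RatFunc L) A2 / algebraMap (Polynomial L) (RatFunc L) b := by
    rw [hsm, ← mul_div_assoc, ← h3, div_add_div _ _ (pow_ne_zero B haQ) hab]
    congr 1
    ring
  have h5 := congrArg Λ h4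
  rw [map_smul, map_add, hΛ.1 A2 b hb0 hcop, add_zero, hΛ.2 A1 B, smul_eq_mul] at h5
  · have h6 : A1.coeff (B * Q.natDegree - 1) = numT m B Q.natDegree Q b P := by
      rw [hA1, coeff_csum, if_pos (by omega)]
      rfl
    rw [h6] at h5
    rw [hden', eq_div_iff (mul_ne_zero hR0 hl0)]
    rw [eq_div_iff hl0] at h5
    rw [← h5]
    ring
  · rw [Polynomial.degree_lt_iff_coeff_zero]
    intro n hn
    rw [hA1, coeff_csum, if_neg (by omega)]

end Pool.Agent.RS.H77
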